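import Pool.Agent.Y830.AL.Fail

/-!
# A new necessary condition for Alexander polynomials of closed 3-manifolds with first Betti number
one, and failure of sufficiency for all `H` whose torsion needs three generators

The definitions (`Realizes`, `Conditions`, `IsRankOneFG`, `evalOne`) are those of
`Pool.Agent.Results.MP_31b0c0_gt.NotSufficient`.
-/

set_option autoImplicit false

namespace Pool.Agent.Results.MP_31b0c0_gt.ProductIdealCondition

open LaurentPolynomial
open Pool.Agent.Results.MP_31b0c0_gt.NotSufficient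

/-- (1) If `Tors H = ⨁ ℤ/d_i` and the pair `(H, Δ)` satisfies the two classical conditions and is
realized by some space `M` (for instance a closed connected 3-manifold), then `Δ` lies in the
product of the ideals `(d_i, t - 1)`.
(2) For every `H` whose torsion subgroup, of order `N`, is not generated by two elements and for
every symmetric `f` with `f(1) = ±1`, the pair `(H, (t² + (N - 2) t + 1) f)` satisfies the two
classical conditions and is not realized; so the classical conditions are sufficient for no such `H`.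
(3) If `Tors H = ℤ/a ⊕ ℤ/b`, then the condition of (1) follows from the two classical ones. -/
theorem result :
    (∀ (H : Type) [AddCommGroup H] (Δ : ℤ[T;T⁻¹]) (ι : Type) [Fintype ι] (d : ι → ℕ),
      IsRankOneFG H → Conditions H Δ →
      Nonempty (AddCommGroup.torsion H ≃+ ∀ i, ZMod (d i)) →
      ∀ (M : Type) [TopologicalSpace M], Realizes M H Δ →
        Δ ∈ ∏ i, Ideal.span {C (d i : ℤ), T 1 - 1}) ∧
    (∀ (H : Type) [AddCommGroup H], IsRankOneFG H →
      (¬ ∃ a b : AddCommGroup.torsion H, AddSubgroup.closure {a, b} = ⊤) →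
      ∀ f : ℤ[T;T⁻¹], (∃ k : ℤ, Even k ∧ f = T k * LaurentPolynomial.invert f) →
        (evalOne f = 1 ∨ evalOne f = -1) →
        Conditions H
          ((T 2 + C ((Nat.card (AddCommGroup.torsion H) : ℤ) - 2) * T 1 + 1) * f) ∧
        ∀ (M : Type) [TopologicalSpace M],
          ¬ Realizes M H
            ((T 2 + C ((Nat.card (AddCommGroup.torsion H) : ℤ) - 2) * T 1 + 1) * f)) ∧
    (∀ (H : Type) [AddCommGroup H] (Δ : ℤ[T;T⁻¹]) (a b : ℕ),
      Nonempty (AddCommGroup.torsion H ≃+ ZMod a × ZMod b) → Conditions H Δ →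
        Δ ∈ (Ideal.span {C (a : ℤ), T 1 - 1} : Ideal ℤ[T;T⁻¹]) *
          Ideal.span {C (b : ℤ), T 1 - 1}) := by
  refine ⟨?_, ?_, ?_⟩
  · intro H _ Δ ι _ d hR hC ⟨e⟩ M _ hM
    exact Pool.Agent.Y830.AL.necessary d hR hC hM e
  · intro H _ hR hV f hf hf1
    exact Pool.Agent.Y830.AL.fails H hR hV f hf hf1
  · intro H _ Δ a b ⟨e⟩ hC
    have hcard : Nat.card (AddCommGroup.torsion H) = a * b := by
      rw [Nat.card_congr e.toEquiv, Nat.card_prod, Nat.card_zmod, Nat.card_zmod]
    refine Pool.Agent.Y830.AL.two_generators (a : ℤ) (b : ℤ) Δ hC.1 ?_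
    have h := hC.2
    rw [hcard, Nat.cast_mul] at h
    exact h

end Pool.Agent.Results.MP_31b0c0_gt.ProductIdealCondition
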